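import Pool.Agent.W774.TL.Stm

/-!
The gradient of a periodic C^2 potential is bounded.
-/

set_option autoImplicit false

namespace Pool.Agent.W787.TL

open Set Filter Topology Pool.Agent.W774.TL

theorem df_eq {n : ℕ} (f : (Fin n → ℝ) → ℝ → ℝ) (hf : C2 f) (i : Fin n) (x : Fin n → ℝ) (t : ℝ) :
    Df f i x t =
      fderiv ℝ (fun q : (Fin n → ℝ) × ℝ => f q.1 q.2) (x, t) (Pi.single i 1, 0) := by
  have hd : DifferentiableAt ℝ (fun q : (Fin n → ℝ) × ℝ => f q.1 q.2) (x, t) :=
    (hf.differentiable (by norm_num)) _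
  have hc : HasDerivAt (fun s : ℝ => (Function.update x i s, t))
      ((Pi.single i (1 : ℝ) : Fin n → ℝ), (0 : ℝ)) (x i) :=
    (hasDerivAt_update x i (x i)).prodMk (hasDerivAt_const _ _)
  have hx : (fun s : ℝ => (Function.update x i s, t)) (x i) = (x, t) := by
    simp
  have h1 := hd.hasFDerivAt
  rw [← hx] at h1
  have h2 := h1.comp_hasDerivAt (x i) hc
  have h3 := h2.deriv
  rw [← hx]
  exact h3

theorem df_per {n : ℕ} (f : (Fin n → ℝ) → ℝ → ℝ) (hp : PerF f) (i : Fin n) (x : Fin n → ℝ)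
    (t : ℝ) (k : Fin n → ℤ) (l : ℤ) : Df f i (fun j => x j + k j) (t + l) = Df f i x t := by
  unfold Df
  have h1 : (fun s : ℝ => f (Function.update (fun j => x j + (k j : ℝ)) i s) (t + l)) =
      fun s : ℝ => (fun u : ℝ => f (Function.update x i u) t) (s - (k i : ℝ)) := by
    funext s
    have h2 := hp (Function.update x i (s - (k i : ℝ))) t k l
    simp only
    rw [← h2]
    congr 1
    funext j
    by_cases hj : j = i
    · subst hj
      simp
    · simp [Function.update_of_ne hj]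
  rw [h1]
  have h3 := deriv_comp_sub_const (f := fun u : ℝ => f (Function.update x i u) t)
    (a := (k i : ℝ)) (x := x i + (k i : ℝ))
  refine h3.trans ?_
  simp

theorem gb_thm : P_GB := by
  intro n f hf hp
  have hcont : ∀ i : Fin n, Continuous (fun q : (Fin n → ℝ) × ℝ =>
      fderiv ℝ (fun q : (Fin n → ℝ) × ℝ => f q.1 q.2) q (Pi.single i 1, 0)) := by
    intro i
    exact (hf.continuous_fderiv (by norm_num)).clm_apply continuous_const
  have hK : IsCompact ((Icc (0 : Fin n → ℝ) 1) ×ˢ (Icc (0 : ℝ) 1)) :=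
    isCompact_Icc.prod isCompact_Icc
  have hb : ∀ i : Fin n, ∃ C : ℝ, ∀ q ∈ (Icc (0 : Fin n → ℝ) 1) ×ˢ (Icc (0 : ℝ) 1),
      ‖fderiv ℝ (fun q : (Fin n → ℝ) × ℝ => f q.1 q.2) q (Pi.single i 1, 0)‖ ≤ C := by
    intro i
    exact hK.exists_bound_of_continuousOn (hcont i).continuousOn
  choose C hC using hb
  refine ⟨∑ i, |C i|, Finset.sum_nonneg (fun i _ => abs_nonneg _), ?_⟩
  intro i x t
  have h1 : Df f i x t = Df f i (fun j => Int.fract (x j)) (Int.fract t) := by
    rw [← df_per f hp i (fun j => Int.fract (x j)) (Int.fract t) (fun j => ⌊x j⌋) ⌊t⌋]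
    congr 1
    · funext j
      exact (Int.fract_add_floor (x j)).symm
    · exact (Int.fract_add_floor t).symm
  rw [h1, df_eq f hf]
  have h2 := hC i ((fun j => Int.fract (x j)), Int.fract t) ⟨⟨fun j => Int.fract_nonneg _,
    fun j => (Int.fract_lt_one _).le⟩, ⟨Int.fract_nonneg _, (Int.fract_lt_one _).le⟩⟩
  rw [Real.norm_eq_abs] at h2
  refine h2.trans ((le_abs_self _).trans ?_)
  exact Finset.single_le_sum (f := fun i => |C i|) (fun i _ => abs_nonneg _) (Finset.mem_univ i)

end Pool.Agent.W787.TL
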